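import Pool.Agent.Helper21.SuzukiAction

set_option autoImplicit false

namespace Pool.Agent.Results.MP_c2cbdb_al.SuzukiThreeUT

open Pool.Agent.Helper21.Suzuki

/-- For every `m ≥ 1` and every field `F` with `q = 2 ^ (2 m + 1)` elements, the Suzuki group
`Sz(q)` in its natural action on the `q ^ 2 + 1` points of the Suzuki–Tits ovoid of `PG(3, q)` has
the 3-universal transversal property. -/
theorem result (m : ℕ) (hm : 1 ≤ m) (F : Type*) [Field F]
    (hF : Nat.card F = 2 ^ (2 * m + 1)) :
    HasUniversalTransversalProperty (suzukiPermGroup F m) 3 := by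
  have hfin : Finite F := Nat.finite_of_card_ne_zero (by rw [hF]; positivity)
  have hfin' : Fintype F := Fintype.ofFinite F
  have hchar : CharP F 2 := by
    rw [Nat.card_eq_fintype_card] at hF
    exact charP_of_card_eq_prime_pow hF
  exact suzuki_three_ut m hF hm

end Pool.Agent.Results.MP_c2cbdb_al.SuzukiThreeUT
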